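import Pool.Agent.helper47.MSW.SpecB

/-!
# Project msw (MP_a87880_co), row INU: after the insulation
-/

set_option autoImplicit false

namespace Pool.Agent.MSW

open Equiv Finset Function MeasureTheory Pool.Agent.helper48.PP
open Pool.Agent.DSW (Pr Has GP wt)
open scoped ENNReal Classical

noncomputable section

theorem INU_pow_le {θ : ℝ} (h0 : 0 < θ) (h1 : θ ≤ 1) {a b : ℕ} (h : b ≤ a) : θ ^ a ≤ θ ^ b :=
  pow_le_pow_of_le_one h0.le h1 h

theorem INU (hPTD : PTD_stmt) (hRC2 : RC2_stmt) (hINS : INS_stmt) : INU_stmt := by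
  intro M s hM
  have hM1 : 1 ≤ M := (Nat.one_le_pow _ _ (Nat.succ_pos s)).trans hM
  obtain ⟨K0, c, θ0, hK0, hc, hc1, hθ0, hθ01, hP⟩ := hPTD M hM1
  obtain ⟨K1, θ1, hK1, hθ1, hθ11, hR⟩ := hRC2 M hM1
  have hz1 : (zr s).1 + 1 = (s + 1) ^ 2 := by
    show (s + 1) * s + s + 1 = (s + 1) ^ 2
    ring
  have hzM : (zr s).1 + 1 ≤ M := by rw [hz1]; exact hM
  have hsM : s + 1 ≤ M := (Nat.le_self_pow (by norm_num) (s + 1)).trans hM
  have claim : ∀ i : ℕ, ∃ L : ℝ, 0 < L ∧ ∀ (θ : ℝ) (H : ℕ) (X : List Pat), 0 < θ →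
      θ ≤ min θ0 θ1 → M ≤ H → (∀ b ∈ X, b.1 + 1 ≤ M) →
      A2 H (den θ H) (X ++ List.replicate i (zr s)) ≤
        ENNReal.ofReal (L * θ ^ (min (s + 1) (i + 1))) *
          A1 H (den θ H) (X ++ List.replicate i (zr s)) := by
    intro i
    induction i with
    | zero =>
      refine ⟨K0, hK0, ?_⟩
      intro θ H X hθ hθm hH hX
      have hθ' : θ ≤ θ0 := hθm.trans (min_le_left _ _)
      obtain ⟨h1, -, -, -⟩ := hP θ H X hθ hθ' hH hX
      have e : min (s + 1) (0 + 1) = 1 := by omega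
      rw [List.replicate_zero, List.append_nil, e, pow_one]
      exact h1
    | succ i ih =>
      obtain ⟨L, hL, ih⟩ := ih
      refine ⟨K1 * (1 + L) / c, by positivity, ?_⟩
      intro θ H X hθ hθm hH hX
      have hθ' : θ ≤ θ0 := hθm.trans (min_le_left _ _)
      have hθ'' : θ ≤ θ1 := hθm.trans (min_le_right _ _)
      have hθone : θ ≤ 1 := hθ'.trans hθ01
      set Y : List Pat := X ++ List.replicate i (zr s) with hY
      have hYe : X ++ List.replicate (i + 1) (zr s) = Y ++ [zr s] := by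
        rw [List.replicate_succ', ← List.append_assoc]
      have hYM : ∀ b ∈ Y, b.1 + 1 ≤ M := by
        intro b hb
        rw [hY, List.mem_append] at hb
        rcases hb with hb | hb
        · exact hX b hb
        · rw [List.eq_of_mem_replicate hb]
          exact hzM
      have hih := ih θ H X hθ hθm hH hX
      have hRr := hR θ H Y (zr s) (s + 1) hθ hθ'' (hM1.trans hH) hzM hsM (by omega) (hINS s)
      obtain ⟨-, -, -, hd⟩ := hP θ H Y hθ hθ' hH hYM
      have hdz := hd (zr s) hzM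
      rw [hYe]
      set m : ℕ := (zr s).1 + 1 with hm
      set μ : ℕ := min (s + 1) (i + 1 + 1) with hμ
      set ν : ℕ := min (s + 1) (i + 1) with hν
      have hμν : μ ≤ 1 + ν := by omega
      have hμs : μ ≤ s + 1 := by omega
      have e1 : ENNReal.ofReal (K1 * θ ^ (m + (s + 1))) ≤ ENNReal.ofReal (K1 * θ ^ (m + μ)) := by
        apply ENNReal.ofReal_le_ofReal
        exact mul_le_mul_of_nonneg_left (INU_pow_le hθ hθone (by omega)) hK1.le
      have e2 : ENNReal.ofReal (K1 * θ ^ (m + 1)) * ENNReal.ofReal (L * θ ^ ν) ≤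
          ENNReal.ofReal (K1 * L * θ ^ (m + μ)) := by
        rw [← ENNReal.ofReal_mul (by positivity)]
        apply ENNReal.ofReal_le_ofReal
        have : K1 * θ ^ (m + 1) * (L * θ ^ ν) = K1 * L * θ ^ (m + 1 + ν) := by
          rw [pow_add θ (m + 1) ν]
          ring
        rw [this]
        exact mul_le_mul_of_nonneg_left (INU_pow_le hθ hθone (by omega)) (by positivity)
      have e3 : ENNReal.ofReal (K1 * θ ^ (m + μ)) + ENNReal.ofReal (K1 * L * θ ^ (m + μ)) =
          ENNReal.ofReal (K1 * (1 + L) / c * θ ^ μ) * ENNReal.ofReal (c * θ ^ m) := by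
        rw [← ENNReal.ofReal_add (by positivity) (by positivity),
          ← ENNReal.ofReal_mul (by positivity)]
        congr 1
        rw [pow_add]
        field_simp
      calc A2 H (den θ H) (Y ++ [zr s])
          ≤ ENNReal.ofReal (K1 * θ ^ (m + (s + 1))) * A1 H (den θ H) Y +
              ENNReal.ofReal (K1 * θ ^ (m + 1)) * A2 H (den θ H) Y := hRr
        _ ≤ ENNReal.ofReal (K1 * θ ^ (m + μ)) * A1 H (den θ H) Y +
              ENNReal.ofReal (K1 * θ ^ (m + 1)) *
                (ENNReal.ofReal (L * θ ^ ν) * A1 H (den θ H) Y) := by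
            gcongr
        _ = ENNReal.ofReal (K1 * θ ^ (m + μ)) * A1 H (den θ H) Y +
              (ENNReal.ofReal (K1 * θ ^ (m + 1)) *
                ENNReal.ofReal (L * θ ^ ν)) * A1 H (den θ H) Y := by
            rw [mul_assoc]
        _ ≤ ENNReal.ofReal (K1 * θ ^ (m + μ)) * A1 H (den θ H) Y +
              ENNReal.ofReal (K1 * L * θ ^ (m + μ)) * A1 H (den θ H) Y := by
            gcongr
        _ = ENNReal.ofReal (K1 * (1 + L) / c * θ ^ μ) *
              (ENNReal.ofReal (c * θ ^ m) * A1 H (den θ H) Y) := by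
            rw [← add_mul, e3, mul_assoc]
        _ ≤ ENNReal.ofReal (K1 * (1 + L) / c * θ ^ μ) * A1 H (den θ H) (Y ++ [zr s]) := by
            gcongr
  obtain ⟨L, hL, hcl⟩ := claim (s + 1)
  refine ⟨L, min θ0 θ1, hL, lt_min hθ0 hθ1, (min_le_left _ _).trans hθ01, ?_⟩
  intro θ H X hθ hθm hH hX
  have h := hcl θ H X hθ hθm hH hX
  have e : min (s + 1) (s + 1 + 1) = s + 1 := by omega
  rw [e] at h
  exact h

end

end Pool.Agent.MSW
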