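import Pool.Agent.helper47.MSW.SpecB
import Pool.Agent.helper47.MSW.SpecD

/-!
# Project msw (MP_a87880_co), row LTF: facts on the lists of blocks
-/

set_option autoImplicit false

namespace Pool.Agent.MSW

open Equiv Finset Function MeasureTheory Pool.Agent.helper48.PP
open Pool.Agent.DSW (Pr Has GP wt)
open scoped ENNReal Classical

noncomputable section

theorem LTF_tl_append (X Y : List Pat) : tl (X ++ Y) = tl X + tl Y := by
  unfold tl
  rw [List.map_append, List.sum_append]

theorem LTF_tl_blk (s : ℕ) (ε : Bool) : tl (Blk s ε) = tl (Iz s) + 2 + tl (Iz s) := by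
  unfold Blk
  rw [LTF_tl_append, LTF_tl_append]
  congr 2
  cases ε <;> rfl

theorem LTF_lst_cons (a : ℕ × Bool) (L : List (ℕ × Bool)) :
    Lst (a :: L) = Blk a.1 a.2 ++ Lst L := by
  unfold Lst
  rw [List.flatMap_cons]

theorem LTF_tl_flp (L : List (ℕ × Bool)) : tl (Lst (flp L)) = tl (Lst L) := by
  induction L with
  | nil => rfl
  | cons a L ih =>
    have h : flp (a :: L) = (a.1, !a.2) :: flp L := rfl
    rw [h, LTF_lst_cons, LTF_lst_cons, LTF_tl_append, LTF_tl_append, ih, LTF_tl_blk, LTF_tl_blk]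

theorem LTF_len (L : List (ℕ × Bool)) : L.length ≤ tl (Lst L) := by
  induction L with
  | nil => exact Nat.zero_le _
  | cons a L ih =>
    rw [LTF_lst_cons, LTF_tl_append, LTF_tl_blk, List.length_cons]
    omega

theorem LTF_mem {T : ℕ} {m s : ℕ → ℕ} {a : ℕ × Bool} (ha : a ∈ LT T m s) :
    ∃ i < T, a.1 = s i := by
  unfold LT at ha
  rw [List.mem_flatMap] at ha
  obtain ⟨i, hi, h⟩ := ha
  rw [List.mem_range] at hi
  have := List.eq_of_mem_replicate h
  exact ⟨i, hi, by rw [this]⟩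

theorem LTF_lenLT {T : ℕ} (m s : ℕ → ℕ) (hT : 0 < T) : m 0 ≤ (LT T m s).length := by
  obtain ⟨T', rfl⟩ : ∃ T', T = T' + 1 := ⟨T - 1, by omega⟩
  unfold LT
  rw [List.range_succ_eq_map, List.flatMap_cons, List.length_append, List.length_replicate]
  exact Nat.le_add_right _ _

theorem LTF (hRCZ : RCZ_stmt) : LTF_stmt := by
  intro T M m s hM hs hT
  obtain ⟨-, -, hB, -⟩ := hRCZ
  have h1 : Adm M (Lst (LT T m s)) := by
    intro b hb
    unfold Lst at hb
    rw [List.mem_flatMap] at hb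
    obtain ⟨a, ha, hba⟩ := hb
    obtain ⟨i, hi, hai⟩ := LTF_mem ha
    exact hB a.1 M a.2 (by rw [hai]; exact hs i hi) hM b hba
  have h2 : Adm M (Lst (flp (LT T m s))) := by
    intro b hb
    unfold Lst at hb
    rw [List.mem_flatMap] at hb
    obtain ⟨a, ha, hba⟩ := hb
    unfold flp at ha
    rw [List.mem_map] at ha
    obtain ⟨c, hc, rfl⟩ := ha
    obtain ⟨i, hi, hai⟩ := LTF_mem hc
    exact hB c.1 M (!c.2) (by rw [hai]; exact hs i hi) hM b hba
  have h3 := LTF_tl_flp (LT T m s)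
  have h4 : m 0 ≤ tl (Lst (LT T m s)) := (LTF_lenLT m s hT).trans (LTF_len _)
  refine ⟨h1, h2, h3, h4, ?_⟩
  intro hm
  refine ⟨?_, ?_⟩
  · intro h
    rw [h] at h4
    have : tl ([] : List Pat) = 0 := rfl
    omega
  · intro h
    rw [← h3, h] at h4
    have : tl ([] : List Pat) = 0 := rfl
    omega

end

end Pool.Agent.MSW
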